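import Pool.Agent.Helper66_DF.StmtsE
import Pool.Agent.Helper74_PP.SupJ

/-!
# Squad DF: row COV

A nonzero central idempotent over a stable block of the normal subgroup `Y` does not vanish on the
centraliser of an `ℓ`-subgroup `Q` of `Y` if the block does not vanish there.
-/

open scoped BigOperators

noncomputable section

namespace Pool.Agent.DF.H43

open Pool.Agent.Helper51_AWC Pool.Agent.Helper79_WRA Pool.Agent.PP Pool.Agent.PP.J74

variable {F X : Type} [Field F] [Group X] [Finite X] {Y : Subgroup X} {b e : X → F}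

/-- the part of `e` on the coset `q` -/
def part1 (Y : Subgroup X) (e : X → F) (q : X ⧸ Y) : X → F := cut {h : X | (h : X ⧸ Y) = q} e

theorem part1_sum (e : X → F) [Fintype (X ⧸ Y)] : e = ∑ q : X ⧸ Y, part1 Y e q := by
  classical
  funext h
  rw [Finset.sum_apply, Finset.sum_eq_single (h : X ⧸ Y)]
  · exact (cut_of_mem (S := {h' : X | (h' : X ⧸ Y) = (h : X ⧸ Y)}) e rfl).symm
  · intro c _ hc
    exact cut_of_not_mem e fun h' => hc h'.symm
  · intro h'
    exact absurd (Finset.mem_univ _) h'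

theorem part1_CE (hY : Y.Normal) (hb : SBlk Y b) (he : CC b Y e) (g : X) :
    CE b Y g (part1 Y e (g : X ⧸ Y)) := by
  have hmem : ∀ h : X, (h : X ⧸ Y) = (g : X ⧸ Y) ↔ g⁻¹ * h ∈ Y := by
    intro h
    rw [eq_comm, QuotientGroup.eq]
  refine ⟨?_, ?_, ?_⟩
  · intro h hh
    exact cut_of_not_mem e fun h' => hh ((hmem h).1 h')
  · intro n hn h
    have h1 : ((n * h * n⁻¹ : X) : X ⧸ Y) = (h : X ⧸ Y) := by
      have hn1 : ((n : X) : X ⧸ Y) = 1 := (QuotientGroup.eq_one_iff n).2 hn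
      rw [QuotientGroup.mk_mul, QuotientGroup.mk_mul, QuotientGroup.mk_inv, hn1]
      simp
    unfold part1
    by_cases hh : (h : X ⧸ Y) = (g : X ⧸ Y)
    · rw [cut_of_mem (S := {h' : X | (h' : X ⧸ Y) = (g : X ⧸ Y)}) e hh,
        cut_of_mem (S := {h' : X | (h' : X ⧸ Y) = (g : X ⧸ Y)}) e (h1.trans hh), he.inv n hn]
    · rw [cut_of_not_mem (S := {h' : X | (h' : X ⧸ Y) = (g : X ⧸ Y)}) (h := h) e hh,
        cut_of_not_mem (S := {h' : X | (h' : X ⧸ Y) = (g : X ⧸ Y)}) e
          (fun h' => hh (h1.symm.trans h'))]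
  · unfold part1
    rw [mulF_cut hb.supp _ e, he.abs]
    intro n hn x
    have hn1 : ((n : X) : X ⧸ Y) = 1 := (QuotientGroup.eq_one_iff n).2 hn
    change ((n⁻¹ * x : X) : X ⧸ Y) = _ ↔ _
    rw [QuotientGroup.mk_mul, QuotientGroup.mk_inv, hn1]
    simp

/-- a nonzero idempotent has a part outside of `J₁ C` -/
theorem exists_part1 (he : IsIdem e) (h0 : e ≠ 0) :
    ∃ g : X, part1 Y e (g : X ⧸ Y) ∉ J1C b Y := by
  classical
  by_contra hcon
  simp only [not_exists, not_not] at hcon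
  have := Fintype.ofFinite (X ⧸ Y)
  have h1 : e ∈ J1C b Y := by
    rw [part1_sum (Y := Y) e]
    refine Submodule.sum_mem _ fun q _ => ?_
    obtain ⟨g, rfl⟩ := QuotientGroup.mk_surjective q
    exact hcon g
  obtain ⟨n, hn⟩ := (J1C_nil h1).2
  have hpow : ∀ k : ℕ, ma e ^ (k + 1) = ma e := by
    intro k
    induction k with
    | zero => simp
    | succ k ih => rw [pow_succ, ih, ← ma_mul, he.2]
  apply h0
  apply ma_injective
  rw [ma_zero, ← hpow n, pow_succ, hn, zero_mul]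

/-- COV -/
theorem covE : CovEStmt := by
  intro ℓ F _ hF X _ _ Y hY b hb e he h0 heb Q hQ hp hg
  have hbe : mulF b e = e := by rw [f_comm hb, heb]
  have heC : CC b Y e := ⟨fun n _ h => he.1 h n, hbe⟩
  obtain ⟨g, hgJ⟩ := exists_part1 (Y := Y) (b := b) he h0
  have hE := part1_CE hY hb heC g
  obtain ⟨xf1, -, -, xf2, -, -⟩ := xfs ℓ F hF X Y hY b hb
  obtain ⟨lo1, -, -, -, -, -⟩ := loc ℓ F hF X Y hY b hb
  have hgX : g ∈ XF b Y := by
    by_contra hgn
    apply hgJ
    have h1 : part1 Y e (g : X ⧸ Y) = 0 := by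
      funext h
      by_cases hh : (h : X ⧸ Y) = (g : X ⧸ Y)
      · unfold part1
        rw [cut_of_mem (S := {h' : X | (h' : X ⧸ Y) = (g : X ⧸ Y)}) e hh]
        apply supJ ℓ F hF X Y hY b hb e he heb
        intro hX
        apply hgn
        have h2 : h⁻¹ * g ∈ Y := QuotientGroup.eq.1 hh
        have h3 := (XF b Y).mul_mem hX (le_XF hY hb h2)
        rwa [mul_inv_cancel_left] at h3
      · exact cut_of_not_mem e hh
    rw [h1]
    exact Submodule.zero_mem _
  obtain ⟨u, u', hu⟩ := (xf1 g).1 hgX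
  obtain ⟨-, -, -, -, hv, -, -⟩ := xf2 g u u' hu
  obtain ⟨z, hz, ez⟩ := hv _ hE
  obtain ⟨hres, -, hinv⟩ := lo1 z hz
  have hl : lamJ b z ≠ 0 := by
    intro hl
    rw [hl] at hres
    unfold IsRes at hres
    rw [zero_smul, sub_zero] at hres
    apply hgJ
    rw [ez]
    exact Submodule.subset_span ⟨z, u, hz, hres, hu.left.cc, rfl⟩
  obtain ⟨z', hz', ezz⟩ := hinv hl
  have key : mulF (part1 Y e (g : X ⧸ Y)) (mulF u' z') = b := by
    rw [ez, mulF_assoc, ← mulF_assoc u, hu.mul, hz'.abs, ezz]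
  obtain ⟨t, ht, ht'⟩ := hg
  by_contra hcon
  simp only [not_exists, not_and, not_not] at hcon
  apply ht'
  have h1 : PP.br Q (part1 Y e (g : X ⧸ Y)) = 0 := by
    funext h
    by_cases hh : h ∈ Subgroup.centralizer (Q : Set X)
    · rw [H66.br_of_mem hh]
      unfold part1 cut
      rw [hcon h hh, ite_self]
      rfl
    · rw [H66.br_of_not_mem hh]
      rfl
  have h2 := H66.br_mulF hF hp (a := part1 Y e (g : X ⧸ Y)) (b := mulF u' z')
    (fun p hp t => hE.inv p (hQ hp) t)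
    (fun p hp t => inv_mulF hu.right.inv hz'.inv p (hQ hp) t)
  rw [key, h1] at h2
  have h3 := congrFun h2 t
  rw [H66.br_of_mem ht] at h3
  rw [h3]
  unfold mulF
  simp

end Pool.Agent.DF.H43
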