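import Pool.Agent.Helper66_DF.StmtsE2
import Pool.Agent.Helper29_D2.Fd2

/-!
# Squad DF, module FST: from the characters of `N` to `DfE`
-/

open scoped BigOperators

set_option linter.unusedSectionVars false

noncomputable section

namespace Pool.Agent.DF.H43

open Pool.Agent.Helper51_AWC Pool.Agent.Helper79_WRA Pool.Agent.PP
open Pool.Agent.PP.H75 (push push_eq cj Om Bd)
open Pool.Agent.PP.D1.H27
open Pool.Agent.PP.CD2.H29 (card_mul_rel)

section grp

variable {A B : Type} [Group A] [Group B] [Finite A] [Finite B]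

/-- the conjugation action on the conjugates with a given image -/
def actMM (p : A →* B) (x : A) :
    MulAction p.ker {z : A // (∃ g, z = g * x * g⁻¹) ∧ p z = p x} where
  smul k z := ⟨k * z.1 * (k : A)⁻¹, by
    obtain ⟨g, hg⟩ := z.2.1
    refine ⟨⟨k * g, ?_⟩, ?_⟩
    · rw [hg]; group
    · rw [map_mul, map_mul, map_inv, (MonoidHom.mem_ker).1 k.2, z.2.2]; simp⟩
  one_smul z := by
    apply Subtype.ext
    change ((1 : p.ker) : A) * z.1 * ((1 : p.ker) : A)⁻¹ = z.1
    simp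
  mul_smul k k' z := by
    apply Subtype.ext
    change ((k * k' : p.ker) : A) * z.1 * ((k * k' : p.ker) : A)⁻¹ =
      k * (k' * z.1 * (k' : A)⁻¹) * (k : A)⁻¹
    simp only [Subgroup.coe_mul]
    group

theorem ker_le_cent {ℓ : ℕ} [Fact ℓ.Prime] {p : A →* B} (hk : IsPGroup ℓ p.ker) (x : A)
    (hm : ¬ ℓ ∣ mm p x) : p.ker ≤ Subgroup.centralizer ({x} : Set A) := by
  classical
  let act := actMM p x
  obtain ⟨z, hz⟩ := hk.nonempty_fixed_point_of_prime_not_dvd_card
    {z : A // (∃ g, z = g * x * g⁻¹) ∧ p z = p x} hm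
  obtain ⟨g, hg⟩ := z.2.1
  intro k hkk
  have hk' : g * k * g⁻¹ ∈ p.ker := (MonoidHom.normal_ker p).conj_mem _ hkk g
  have h1 : (g * k * g⁻¹) * z.1 * (g * k * g⁻¹)⁻¹ = z.1 := by
    have := hz ⟨g * k * g⁻¹, hk'⟩
    exact congrArg Subtype.val this
  rw [hg] at h1
  rw [Subgroup.mem_centralizer_singleton_iff]
  have h2 : g * (k * x * k⁻¹) * g⁻¹ = g * x * g⁻¹ := by
    calc g * (k * x * k⁻¹) * g⁻¹ =
        (g * k * g⁻¹) * (g * x * g⁻¹) * (g * k * g⁻¹)⁻¹ := by group
      _ = g * x * g⁻¹ := h1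
  have h3 : k * x * k⁻¹ = x := mul_left_cancel (mul_right_cancel h2)
  calc k * x = k * x * k⁻¹ * k := by group
    _ = x * k := by rw [h3]

/-- a normal `ℓ`-subgroup lies in the `ℓ`-subgroups of index prime to `ℓ` -/
theorem le_of_sylow {C : Type} [Group C] [Finite C] {ℓ : ℕ} [Fact ℓ.Prime] {S K : Subgroup C}
    (hS : IsPGroup ℓ S) (hi : ¬ ℓ ∣ S.index) (hK : IsPGroup ℓ K) (hn : K.Normal) : K ≤ S := by
  have h1 : IsPGroup ℓ (S ⊔ K : Subgroup C) := hS.to_sup_of_normal_right hK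
  have h2 := (hS.toSylow hi).is_maximal' h1 le_sup_left
  have h3 : (S ⊔ K : Subgroup C) = S := h2
  rw [← h3]
  exact le_sup_right

/-- an `ℓ`-subgroup lies in the class if there is an `ℓ`-subgroup of the class of index prime
to `ℓ` -/
theorem cls_of_sylow {C : Type} [Group C] [Finite C] {ℓ : ℕ} [Fact ℓ.Prime]
    {𝒟 : (Q : Type) → [Group Q] → Prop} (h𝒟 : SubCl 𝒟) {S Q : Subgroup C}
    (hS : IsPGroup ℓ S) (hi : ¬ ℓ ∣ S.index) (hc : 𝒟 S) (hQ : IsPGroup ℓ Q) : 𝒟 Q := by
  obtain ⟨T, hT⟩ := hQ.exists_le_sylow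
  let S' : Sylow ℓ C := hS.toSylow hi
  have e : T ≃* S' := Sylow.equiv T S'
  have h2 : 𝒟 T := h𝒟 T S e.toMonoidHom e.injective hc
  exact h𝒟 Q T (Subgroup.inclusion hT) (Subgroup.inclusion_injective hT) h2

end grp

section core

variable {M : Ideal (integralClosure ℤ ℂ)} {A B : Type} [Group A] [Group B] [Finite A] [Finite B]

/-- the defect of the image -/
theorem core3 (inv : InvStmt) {ℓ : ℕ} (hℓ : ℓ.Prime) [M.IsMaximal]
    (hM : (ℓ : integralClosure ℤ ℂ) ∈ M) (fld : FldStmt)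
    {𝒟 : (Q : Type) → [Group Q] → Prop} (h𝒟 : SubCl 𝒟) {p : A →* B}
    (hp : Function.Surjective p) (hkO : p.ker = opCore ℓ A) :
    letI := Ideal.Quotient.field M
    ∀ {ψ : A → ℂ}, ψ ∈ Irr A → ∀ {b : A → FF M}, IsBlk b → res M b ψ = 1 → DfIn ℓ M 𝒟 ψ →
      ∀ Q : Subgroup B, IsPGroup ℓ Q → br Q (push p b) ≠ 0 → 𝒟 Q := by
  let _ := Ideal.Quotient.field M
  intro ψ hψ b hb hb1 hS Q hQ hbr
  have hF : GoodF ℓ (FF M) := fld ℓ hℓ M hM
  have hfact := Fact.mk hℓ
  obtain ⟨x, P, hx0, hPx, hPp, hPi, P₀, hP₀, f, hDP₀, hf⟩ := hS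
  have hkp : IsPGroup ℓ p.ker := by
    rw [hkO]
    exact H75.opCore_isPGroup hℓ
  have hcl : IsCl (clsum (FF M) ⊤ x) := clsum_cl x
  have hlab : res M (clsum (FF M) ⊤ x) ψ ≠ 0 := by
    rw [H75.res_clsum x]
    exact hx0
  obtain ⟨u, hu, hbu⟩ := inv ℓ (FF M) hF A b (clsum (FF M) ⊤ x) hb hcl (by
    intro n h0
    have h1 := (res_iter (M := M) hψ hcl hb.1.1 n).2
    rw [h0, H75.res_zero, hb1, mul_one] at h1
    exact pow_ne_zero n hlab h1.symm)
  have hbp : mulF (push p b) (mulF (push p (clsum (FF M) ⊤ x)) (push p u)) = push p b := by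
    rw [← H75.push_mulF, ← H75.push_mulF, hbu]
  have c1 := H75.push_isCl hp hb.1.1
  have c2 := H75.push_isCl hp hcl
  have c3 := H75.push_isCl hp hu
  have h2 : br Q (push p (clsum (FF M) ⊤ x)) ≠ 0 := by
    intro h0
    apply hbr
    rw [← hbp, H66.br_mulF hF hQ (H66.IsCl.inv c1 Q) (H66.IsCl.inv (H75.isCl_mulF c2 c3) Q),
      H66.br_mulF hF hQ (H66.IsCl.inv c2 Q) (H66.IsCl.inv c3 Q), h0, H75.mulF_zero_left,
      H75.mulF_zero_right]
  rw [push_cls p hp x, br_smul] at h2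
  have hm : (mm p x : FF M) ≠ 0 := by
    intro h0
    apply h2
    funext y
    rw [h0, zero_mul]
    rfl
  have h3 : br Q (clsum (FF M) ⊤ (p x)) ≠ 0 := by
    intro h0
    apply h2
    funext y
    rw [h0]
    exact mul_zero _
  obtain ⟨y, hy, hyne⟩ := exists_of_br_ne h3
  obtain ⟨r, hr⟩ : ∃ r, y = r * p x * r⁻¹ := by
    by_contra hcon
    exact hyne (clsum_neg hcon)
  -- `Q` centralises a conjugate of `p x`
  have hle : conjS r⁻¹ Q ≤ Subgroup.centralizer ({p x} : Set B) := by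
    intro z hz
    rw [mem_conjS, inv_inv] at hz
    rw [Subgroup.mem_centralizer_singleton_iff]
    have h4 := Subgroup.mem_centralizer_iff.1 hy _ hz
    rw [hr] at h4
    have h5 : r * (z * p x) * r⁻¹ = r * (p x * z) * r⁻¹ := by
      calc r * (z * p x) * r⁻¹ = r * z * r⁻¹ * (r * p x * r⁻¹) := by group
        _ = r * p x * r⁻¹ * (r * z * r⁻¹) := h4
        _ = r * (p x * z) * r⁻¹ := by group
    exact mul_left_cancel (mul_right_cancel h5)
  have hmℓ : ¬ ℓ ∣ mm p x := by
    intro h7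
    apply hm
    have := hF.char
    exact (CharP.cast_eq_zero_iff (FF M) ℓ _).2 h7
  -- the image of `P`
  have hkx : p.ker ≤ Subgroup.centralizer ({x} : Set A) := ker_le_cent hkp x hmℓ
  have hkP : p.ker ≤ P := by
    have h4 := le_of_sylow (ℓ := ℓ) (C := Subgroup.centralizer ({x} : Set A))
      (S := P.subgroupOf (Subgroup.centralizer ({x} : Set A)))
      (K := p.ker.subgroupOf (Subgroup.centralizer ({x} : Set A)))
      (hPp.of_equiv (Subgroup.subgroupOfEquivOfLe hPx).symm) hPi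
      (hkp.of_equiv (Subgroup.subgroupOfEquivOfLe hkx).symm)
      ((MonoidHom.normal_ker p).subgroupOf _)
    intro k hk
    exact h4 (x := ⟨k, hkx hk⟩) hk
  -- `P.map p` embeds into `P₀`
  have hDP : 𝒟 (P.map p) := by
    have hs : Function.Surjective (p.subgroupMap P) := p.subgroupMap_surjective P
    have hker : (p.subgroupMap P).ker ≤ f.ker := by
      intro u hu
      rw [MonoidHom.mem_ker] at hu ⊢
      rw [hf u, ← hkO, MonoidHom.mem_ker]
      exact congrArg Subtype.val hu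
    obtain ⟨j, hj⟩ : ∃ j : P.map p →* P₀, ∀ u : P, j (p.subgroupMap P u) = f u :=
      ⟨(p.subgroupMap P).liftOfSurjective hs ⟨f, hker⟩, fun u =>
        (p.subgroupMap P).liftOfRightInverse_comp_apply _
          (Function.rightInverse_surjInv hs) ⟨f, hker⟩ u⟩
    refine h𝒟 (P.map p) P₀ j ?_ hDP₀
    rw [injective_iff_map_eq_one]
    intro v hv
    obtain ⟨u, rfl⟩ := hs v
    rw [hj u, hf u, ← hkO, MonoidHom.mem_ker] at hv
    exact Subtype.ext hv
  have hSle : P.map p ≤ Subgroup.centralizer ({p x} : Set B) := by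
    rintro _ ⟨z, hz, rfl⟩
    have h4 := Subgroup.mem_centralizer_singleton_iff.1 (hPx hz)
    rw [Subgroup.mem_centralizer_singleton_iff, ← map_mul, h4, map_mul]
  have hcardP : Nat.card P = Nat.card p.ker * Nat.card (P.map p) := by
    have h4 : (P.map p).comap p = P := by
      rw [Subgroup.comap_map_eq, sup_eq_left.2 hkP]
    have h5 := H75.card_comap hp (P.map p)
    rw [h4] at h5
    exact h5
  have hidx : ¬ ℓ ∣ (P.map p).relIndex (Subgroup.centralizer ({p x} : Set B)) := by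
    have h5 := card_mm hp x
    have h6 : P.relIndex (Subgroup.centralizer ({x} : Set A)) * Nat.card P =
        Nat.card (Subgroup.centralizer ({x} : Set A)) := by
      rw [mul_comm]
      exact card_mul_rel hPx
    have h7 : (P.map p).relIndex (Subgroup.centralizer ({p x} : Set B)) *
        Nat.card (P.map p) = Nat.card (Subgroup.centralizer ({p x} : Set B)) := by
      rw [mul_comm]
      exact card_mul_rel hSle
    have h8 : (P.map p).relIndex (Subgroup.centralizer ({p x} : Set B)) * Nat.card P =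
        P.relIndex (Subgroup.centralizer ({x} : Set A)) * mm p x * Nat.card P := by
      calc (P.map p).relIndex (Subgroup.centralizer ({p x} : Set B)) * Nat.card P =
          Nat.card p.ker * ((P.map p).relIndex (Subgroup.centralizer ({p x} : Set B)) *
            Nat.card (P.map p)) := by rw [hcardP]; ring
        _ = Nat.card (Subgroup.centralizer ({x} : Set A)) * mm p x := by rw [h7, h5]
        _ = P.relIndex (Subgroup.centralizer ({x} : Set A)) * mm p x * Nat.card P := by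
            rw [← h6]; ring
    have h9 := Nat.eq_of_mul_eq_mul_right (Nat.card_pos (α := P)) h8
    rw [h9, Nat.Prime.dvd_mul hℓ]
    rintro (h | h)
    · exact hPi h
    · exact hmℓ h
  have hQ' : IsPGroup ℓ (conjS r⁻¹ Q) := by
    rw [IsPGroup.iff_card] at hQ ⊢
    rw [card_conjS]
    exact hQ
  have hQc : 𝒟 ((conjS r⁻¹ Q).subgroupOf (Subgroup.centralizer ({p x} : Set B))) := by
    refine cls_of_sylow (ℓ := ℓ) h𝒟
      (S := (P.map p).subgroupOf (Subgroup.centralizer ({p x} : Set B))) ?_ hidx ?_ ?_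
    · exact (hPp.map p).of_equiv (Subgroup.subgroupOfEquivOfLe hSle).symm
    · exact h𝒟 _ _ (Subgroup.subgroupOfEquivOfLe hSle).toMonoidHom
        (Subgroup.subgroupOfEquivOfLe hSle).injective hDP
    · exact hQ'.of_equiv (Subgroup.subgroupOfEquivOfLe hle).symm
  have h10 : 𝒟 (conjS r⁻¹ Q) :=
    h𝒟 _ _ (Subgroup.subgroupOfEquivOfLe hle).symm.toMonoidHom
      (Subgroup.subgroupOfEquivOfLe hle).symm.injective hQc
  exact h𝒟 _ _ (conjSEquiv r⁻¹ Q).toMonoidHom (conjSEquiv r⁻¹ Q).injective h10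

end core

/-- FST -/
theorem fst (inv : InvStmt) : FstStmt := by
  classical
  intro ℓ hℓ M _ hM
  let _ := Ideal.Quotient.field M
  intro 𝒟 h𝒟 G _ _ hn N hN χ hχ ψ hψ hχψ hS e he h1
  have hfact := Fact.mk hℓ
  have hF : GoodF ℓ (FF M) := H50.fld ℓ hℓ M hM
  obtain ⟨b, hb, hb1, -⟩ := H50.bid ℓ hℓ M hM N ψ hψ
  set p : G →* G ⧸ opCore ℓ G := QuotientGroup.mk' (opCore ℓ G) with hp
  have hker : p.ker = opCore ℓ G := QuotientGroup.ker_mk' _
  have hsurj : Function.Surjective p := QuotientGroup.mk'_surjective (opCore ℓ G)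
  -- the sum of the conjugates of the block of `ψ`
  have hover : (∑ᶠ n : N, χ n * ψ n⁻¹) ≠ 0 := by
    intro h0
    apply hχψ
    rw [← h0]
    apply finsum_congr
    intro n
    rw [H94.irr_star hψ]
  have hB : Bd N (ext0 N b) := ⟨hN, fun x hx => H46.ext0_of_not_mem _ hx, by
    rw [H46.restr_ext0]; exact hb⟩
  have := Fintype.ofFinite (Om (ext0 N b))
  obtain ⟨h, hh⟩ : ∃ h : G → FF M, h = fun x => ∑ f : Om (ext0 N b), f.1 x := ⟨_, rfl⟩
  have hidem : IsIdem h := by rw [hh]; exact hB.fam.isIdem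
  have hsupp : ∀ x, x ∉ N → h x = 0 := by
    intro x hx
    rw [hh]
    exact Finset.sum_eq_zero fun f _ => hB.supp2 f x hx
  have hhb : mulF h (ext0 N b) = ext0 N b := by
    have := hB.fam.mul_sum Finset.univ (Finset.mem_univ (H75.omk (ext0 N b) 1))
    rw [H75.omk_one] at this
    rw [hh]
    exact this
  have hN1 : IsIdem (fun t : N => h t) := by
    refine ⟨fun x y => hidem.1 _ _, ?_⟩
    rw [← H75.mulF_res N h hsupp, hidem.2]
  have k1 : mulF (fun t : N => h t) b = b := by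
    have e1 := H75.mulF_res N (ext0 N b) hsupp
    rw [H46.restr_ext0, hhb, H46.restr_ext0] at e1
    exact e1.symm
  have k2 : res M (fun t : N => h t) ψ = 1 := by
    have e1 := H75.res_mulF hψ hN1.1 hb.1.1
    rw [k1, hb1, mul_one] at e1
    exact e1.symm
  have k3 : res M h χ = 1 := by
    rw [H94.res_over N hN hχ hψ hover hidem.1 hsupp, k2]
  have k4 : mulF e h ≠ 0 := by
    intro h0
    have e1 := H75.res_mulF hχ he.1.1 hidem.1
    rw [h0, H75.res_zero, h1, k3, mul_one] at e1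
    exact zero_ne_one e1
  have k5 : mulF e h = e := (he.2.2 h hidem).resolve_right k4
  -- the map on `N`
  have hqk : (p.subgroupMap N).ker = p.ker.subgroupOf N := by
    ext x
    rw [MonoidHom.mem_ker, Subgroup.mem_subgroupOf, MonoidHom.mem_ker]
    constructor
    · intro h
      exact congrArg Subtype.val h
    · intro h
      exact Subtype.ext h
  have hqO : (p.subgroupMap N).ker = opCore ℓ N := by
    rw [hqk, hker, H75.opCore_sub hℓ hN]
  have hNB : (N.map p).Normal := hN.map p hsurj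
  have hdfh : DfE ℓ 𝒟 (push p h) (N.map p) := by
    intro Q hQN hQ hbr
    obtain ⟨y, hy, hyne⟩ := hbr
    rw [hh, push_fsum] at hyne
    obtain ⟨f, -, hf⟩ := Finset.exists_ne_zero_of_sum_ne_zero hyne
    obtain ⟨g, rfl⟩ := H75.omk_surj f
    change push p (cj g (ext0 N b)) y ≠ 0 at hf
    rw [push_cj, H75.push_ext0, cj] at hf
    have hyN : (p g)⁻¹ * y * p g ∈ N.map p := by
      by_contra hcon
      exact hf (H46.ext0_of_not_mem _ hcon)
    rw [H46.ext0_of_mem _ hyN] at hf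
    have hle : conjS (p g)⁻¹ Q ≤ N.map p := by
      intro z hz
      rw [mem_conjS, inv_inv] at hz
      have h3 := hNB.conj_mem _ (hQN hz) (p g)⁻¹
      have h4 : (p g)⁻¹ * (p g * z * (p g)⁻¹) * (p g)⁻¹⁻¹ = z := by group
      rwa [h4] at h3
    have h5 := core3 inv hℓ hM H50.fld h𝒟 (p.subgroupMap_surjective N) hqO hψ hb hb1 hS
      ((conjS (p g)⁻¹ Q).subgroupOf (N.map p)) ?_ (br_ne_of
        (y := ⟨(p g)⁻¹ * y * p g, hyN⟩) ?_ hf)
    · have h6 : 𝒟 (conjS (p g)⁻¹ Q) :=
        h𝒟 _ _ (Subgroup.subgroupOfEquivOfLe hle).symm.toMonoidHom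
          (Subgroup.subgroupOfEquivOfLe hle).symm.injective h5
      exact h𝒟 _ _ (conjSEquiv (p g)⁻¹ Q).toMonoidHom (conjSEquiv (p g)⁻¹ Q).injective h6
    · have hQ' : IsPGroup ℓ (conjS (p g)⁻¹ Q) := by
        rw [IsPGroup.iff_card] at hQ ⊢
        rw [card_conjS]
        exact hQ
      exact hQ'.of_equiv (Subgroup.subgroupOfEquivOfLe hle).symm
    · rw [Subgroup.mem_centralizer_iff]
      intro z hz
      have hz' : (z : G ⧸ opCore ℓ G) ∈ conjS (p g)⁻¹ Q := hz
      rw [mem_conjS, inv_inv] at hz'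
      have h6 := Subgroup.mem_centralizer_iff.1 hy _ hz'
      apply Subtype.ext
      change (z : G ⧸ opCore ℓ G) * ((p g)⁻¹ * y * p g) = (p g)⁻¹ * y * p g * z
      calc (z : G ⧸ opCore ℓ G) * ((p g)⁻¹ * y * p g) =
          (p g)⁻¹ * ((p g * z * (p g)⁻¹) * y) * p g := by group
        _ = (p g)⁻¹ * (y * (p g * z * (p g)⁻¹)) * p g := by rw [h6]
        _ = (p g)⁻¹ * y * p g * z := by group
  have c1 := H75.push_isCl hsurj hidem.1
  have c2 := H75.push_isCl hsurj he.1.1
  refine DfE.le hF c1 c2 ?_ hdfh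
  have k6 : mulF h e = e := by
    rw [H75.mulF_comm_cl hidem.1 e]
    exact k5
  rw [← H75.push_mulF, k6]

end Pool.Agent.DF.H43
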